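import Mathlib
import Pool.Agent.Helper29.MDefs
import Pool.Agent.Helper29.MAbel2
import Pool.Agent.Helper29.MNorm
import Pool.Agent.Helper29.ForwardS
import Pool.Agent.Helper29.Hol3

set_option autoImplicit false

open Pool.Agent.Helper29

namespace Pool.Agent.Results.MP_67fdd1_al.IdempotentsAreSeq

/-- Every idempotent variety of m-groups, other than the trivial variety and the variety of all
m-groups, is the variety `X_ε` of some periodic 0-1 sequence `ε`. -/
theorem result (X : Set MGroup) (hvar : IsVariety X) (hidem : prodVar X X = X)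
    (htriv : X ≠ trivialVar) (hall : X ≠ Set.univ) :
    ∃ ε : ℕ → Bool, (∃ p : ℕ, 0 < p ∧ Function.Periodic ε p) ∧ X = seqVar ε := by
  obtain ⟨E, hE⟩ := hvar
  have hper : ∀ b : Bool, ∃ p : ℕ, 0 < p ∧ Function.Periodic (fun _ : ℕ => b) p :=
    fun b => ⟨1, one_pos, fun _ => rfl⟩
  have hvar' : IsVariety X := ⟨E, hE⟩
  -- a nontrivial member
  have hnt : ∃ G ∈ X, ¬ Subsingleton G.carrier := by
    by_contra hcon
    push Not at hcon
    apply htriv
    apply Set.Subset.antisymm
    · intro G hG
      exact hcon G hG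
    · intro G hG
      have : Subsingleton G.carrier := hG
      rw [hE]
      intro e _ v
      exact Subsingleton.elim _ _
  obtain ⟨G₀, hG₀, hn₀⟩ := hnt
  have hz : zVar ⊆ X := by
    rw [hE] at hG₀ ⊢
    exact zVar_of_nontrivial hG₀ hn₀
  -- all members are normal-valued
  have hnv : ∀ G ∈ X, NV G.carrier := by
    intro G hG
    by_contra hcon
    apply hall
    rw [Set.eq_univ_iff_forall]
    intro K
    rw [hE] at hG ⊢
    exact holland hG hcon K
  by_cases hsym : ∀ G ∈ X, SymLaw G
  · refine ⟨fun _ => false, hper false, ?_⟩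
    apply Set.Subset.antisymm
    · intro G hG
      exact sym_mem_seqVar (hnv G hG) (hsym G hG)
    · exact seqVar_subset hvar' hidem (fun _ => hz)
  · push Not at hsym
    obtain ⟨G₁, hG₁, hs⟩ := hsym
    have ha : abelianVar ⊆ X := by
      have hnv1 := hnv G₁ hG₁
      rw [hE] at hG₁ ⊢
      exact abelianVar_of_not_sym hG₁ hnv1 hs
    refine ⟨fun _ => true, hper true, ?_⟩
    apply Set.Subset.antisymm
    · intro G hG
      exact nv_mem_seqVar (hnv G hG)
    · exact seqVar_subset hvar' hidem (fun _ => ha)

end Pool.Agent.Results.MP_67fdd1_al.IdempotentsAreSeq
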